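import Pool.Agent.helper21.UB.Spec

set_option autoImplicit false

open Quaternion

namespace Pool.Agent.helper21.UB

theorem INH_coord (v : Fin 3 → ℤ) (a b : ℚ) :
    ((a : ℍ[ℚ]) + (b : ℍ[ℚ]) * pq v).re = a ∧ ((a : ℍ[ℚ]) + (b : ℍ[ℚ]) * pq v).imI = b * v 0 ∧
    ((a : ℍ[ℚ]) + (b : ℍ[ℚ]) * pq v).imJ = b * v 1 ∧ ((a : ℍ[ℚ]) + (b : ℍ[ℚ]) * pq v).imK = b * v 2 := by
  refine ⟨?_, ?_, ?_, ?_⟩ <;> simp [pq]

theorem INH_den (k : ℕ) (B : ℚ) (N : ℤ) (hk : Squarefree k) (h : (k : ℚ) * B ^ 2 = N) :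
    ∃ m : ℤ, B = m := by
  have hd : (B.den : ℚ) ≠ 0 := by exact_mod_cast B.den_nz
  have hB : B * B.den = B.num := Rat.mul_den_eq_num B
  have h1 : (k : ℚ) * (B.num : ℚ) ^ 2 = N * (B.den : ℚ) ^ 2 := by
    rw [← hB, ← h]; ring
  have h2 : (k : ℤ) * B.num ^ 2 = N * (B.den : ℤ) ^ 2 := by exact_mod_cast h1
  have h3 : ((B.den : ℤ) ^ 2) ∣ (k : ℤ) * B.num ^ 2 := ⟨N, by rw [h2]; ring⟩
  have hc : IsCoprime ((B.den : ℤ) ^ 2) (B.num ^ 2) := by
    apply IsCoprime.pow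
    have := B.reduced
    rw [Int.isCoprime_iff_gcd_eq_one, Int.gcd_comm]
    simpa [Int.gcd, Nat.Coprime] using this
  have h4 : ((B.den : ℤ) ^ 2) ∣ (k : ℤ) := hc.dvd_of_dvd_mul_right h3
  have h5 : B.den * B.den ∣ k := by
    have : ((B.den * B.den : ℕ) : ℤ) ∣ (k : ℤ) := by push_cast; rw [← pow_two]; exact h4
    exact_mod_cast this
  have h6 : B.den = 1 := Nat.isUnit_iff.1 (hk _ h5)
  refine ⟨B.num, ?_⟩
  rw [← hB, h6]; simp

theorem INH  : INH_stmt := by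
  intro k v a b hk hv
  obtain ⟨c0, c1, c2, c3⟩ := INH_coord v a b
  have hv' : (v 0 : ℚ) ^ 2 + (v 1 : ℚ) ^ 2 + (v 2 : ℚ) ^ 2 = k := by
    have := hv
    rw [Fin.sum_univ_three] at this
    exact_mod_cast this
  have hvz : v 0 ^ 2 + v 1 ^ 2 + v 2 ^ 2 = (k : ℤ) := by
    rw [← hv, Fin.sum_univ_three]
  constructor
  · intro h
    rcases h with ⟨x, y, z, w, h0, h1, h2, h3⟩ | ⟨x, y, z, w, h0, h1, h2, h3⟩
    · rw [c0] at h0; rw [c1] at h1; rw [c2] at h2; rw [c3] at h3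
      refine ⟨2 * x, x ^ 2 + y ^ 2 + z ^ 2 + w ^ 2, by rw [h0]; push_cast; ring, ?_⟩
      push_cast
      rw [← hv', ← h0, ← h1, ← h2, ← h3]; ring
    · rw [c0] at h0; rw [c1] at h1; rw [c2] at h2; rw [c3] at h3
      refine ⟨2 * x + 1, x ^ 2 + y ^ 2 + z ^ 2 + w ^ 2 + x + y + z + w + 1, by rw [h0]; push_cast; ring, ?_⟩
      have e : a ^ 2 + k * b ^ 2 = a ^ 2 + (b * v 0) ^ 2 + (b * v 1) ^ 2 + (b * v 2) ^ 2 := by
        rw [← hv']; ring
      rw [e, h0, h1, h2, h3]; push_cast; ring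
  · rintro ⟨t, n, ht, hn⟩
    have hB : (k : ℚ) * (2 * b) ^ 2 = ((4 * n - t ^ 2 : ℤ) : ℚ) := by
      push_cast; rw [← hn, ← ht]; ring
    obtain ⟨B, hB'⟩ := INH_den k (2 * b) _ hk hB
    have hz : t ^ 2 + k * B ^ 2 = 4 * n := by
      have : (t : ℚ) ^ 2 + k * (B : ℚ) ^ 2 = 4 * n := by
        rw [← ht, ← hB', ← hn]; ring
      exact_mod_cast this
    rcases Int.even_or_odd' B with ⟨B', hB0 | hB1⟩
    · have ht2 : Even t := by
        have : Even (t ^ 2) := ⟨2 * n - 2 * (k * B' ^ 2), by rw [hB0] at hz; linarith⟩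
        exact (Int.even_pow' two_ne_zero).1 this
      obtain ⟨s, hs⟩ := ht2
      left
      have ha : a = s := by
        have : (2 : ℚ) * a = s + s := by rw [ht, hs]; push_cast; ring
        linarith
      have hb : b = B' := by
        have : (2 : ℚ) * b = 2 * B' := by rw [hB', hB0]; push_cast; ring
        linarith
      refine ⟨s, B' * v 0, B' * v 1, B' * v 2, ?_, ?_, ?_, ?_⟩
      · rw [c0, ha]
      · rw [c1, hb]; push_cast; ring
      · rw [c2, hb]; push_cast; ring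
      · rw [c3, hb]; push_cast; ring
    · have hk4 : ¬ (4 : ℤ) ∣ (k : ℤ) := by
        intro h
        have : (2 * 2 : ℕ) ∣ k := by
          have h' : ((4 : ℕ) : ℤ) ∣ (k : ℤ) := by exact_mod_cast h
          exact_mod_cast h'
        have := hk 2 this
        rw [Nat.isUnit_iff] at this
        omega
      have hBsq : B ^ 2 = 4 * (B' ^ 2 + B') + 1 := by rw [hB1]; ring
      have htodd : Odd t := by
        rcases Int.even_or_odd' t with ⟨s, hs0 | hs1⟩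
        · exfalso
          apply hk4
          refine ⟨n - s ^ 2 - k * (B' ^ 2 + B'), ?_⟩
          rw [hBsq, hs0] at hz
          linarith
        · exact ⟨s, hs1⟩
      obtain ⟨s, hs⟩ := htodd
      have hkmod : ∃ m : ℤ, (k : ℤ) = 4 * m + 3 := by
        refine ⟨n - (s ^ 2 + s) - k * (B' ^ 2 + B') - 1, ?_⟩
        rw [hBsq, hs] at hz
        linarith
      obtain ⟨m, hm⟩ := hkmod
      have key : Odd (v 0) ∧ Odd (v 1) ∧ Odd (v 2) := by
        rcases Int.even_or_odd' (v 0) with ⟨x, hx | hx⟩ <;>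
        rcases Int.even_or_odd' (v 1) with ⟨y, hy | hy⟩ <;>
        rcases Int.even_or_odd' (v 2) with ⟨z, hz' | hz'⟩ <;>
        rw [hx, hy, hz', hm] at hvz <;> ring_nf at hvz <;>
        first
        | exact ⟨⟨x, hx⟩, ⟨y, hy⟩, ⟨z, hz'⟩⟩
        | (exfalso; omega)
      obtain ⟨⟨x, hx⟩, ⟨y, hy⟩, ⟨z, hz'⟩⟩ := key
      right
      have ha : a = s + 1 / 2 := by
        have : (2 : ℚ) * a = 2 * s + 1 := by rw [ht, hs]; push_cast; ring
        linarith
      have hb : b = B' + 1 / 2 := by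
        have : (2 : ℚ) * b = 2 * B' + 1 := by rw [hB', hB1]; push_cast; ring
        linarith
      refine ⟨s, 2 * B' * x + B' + x, 2 * B' * y + B' + y, 2 * B' * z + B' + z, ?_, ?_, ?_, ?_⟩
      · rw [c0, ha]
      · rw [c1, hb, hx]; push_cast; ring
      · rw [c2, hb, hy]; push_cast; ring
      · rw [c3, hb, hz']; push_cast; ring

end Pool.Agent.helper21.UB
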